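import Pool.Agent.MP_d3ab35_lc.H19.Core

/-!
The combinatorial core, with the deterministic instances coded at almost all strings.
-/

set_option autoImplicit false

namespace Pool.Agent.MP_d3ab35_lc.H54

open Finset
open Pool.Agent.MP_d3ab35_lc.H50 (DT)
open Pool.Agent.MP_d3ab35_lc.H19

variable {Ω S U : Type} [DecidableEq S]

open Classical in
/-- the positions in `old` are given to a trivial instance -/
noncomputable def ext (X : Sys Ω S U) (M : Finset S) (old : S → Prop)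
    (h1 : 2 * X.H 0 ≤ M.card) (h2 : ∀ s ∈ M, old s) (h3 : ∀ s, old s → X.own s = none) :
    Sys Ω S (Option U) where
  F := X.F
  wt := X.wt
  sz := fun u => u.elim 0 X.sz
  N := fun u ω => ∀ u', u = some u' → X.N u' ω
  own := fun s => if old s then some none else (X.own s).map some
  blk := fun u => u.elim M X.blk
  H := X.H
  wt_pos := X.wt_pos
  own_blk := by
    rintro (_ | u) s hs
    · exact if_pos (h2 s hs)
    · have := X.own_blk u s hs
      rw [if_neg fun h => (by rw [h3 s h] at this; cases this), this]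
      rfl
  own_wt := by
    rintro s (_ | u) hs
    · exact X.wt_pos s
    · split_ifs at hs with h
      · cases hs
      · exact X.own_wt s u (by simpa using hs)
  card_blk := by
    rintro (_ | u)
    · exact h1
    · exact X.card_blk u
  cert := by
    rintro (_ | u) ω hN
    · exact (Flip.Batch.triv X.wt).imp le_rfl fun _ _ _ _ _ h => by cases h
    · exact (X.cert u ω (hN u rfl)).imp le_rfl fun _ _ h e u' e' => by cases e'; exact h e
  h1 := X.h1

/-- a marker is set -/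
def Mk (X : Sys Ω S U) (M : Finset S) (C : Cond X.F) : Prop :=
  ∃ s ∈ M, s ∈ C.D ∧ X.F.bit C.ω s = true

lemma Mk.mono {X : Sys Ω S U} {M : Finset S} {C C' : Cond X.F} (h : Mk X M C) (hle : C.Le C') :
    Mk X M C' := by
  obtain ⟨s, h1, h2, h3⟩ := h
  exact ⟨s, h1, hle.1 h2, (hle.2.2.2 s h2).trans h3⟩

open Classical in
/-- the positions that count -/
noncomputable def Zo (X : Sys Ω S U) (old : S → Prop) (C : Cond X.F) : Finset S :=
  (X.Z C).filter fun s => ¬ old s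

lemma mem_Zo {X : Sys Ω S U} {old : S → Prop} {C : Cond X.F} {s : S} :
    s ∈ Zo X old C ↔ s ∈ X.Z C ∧ ¬ old s := by
  classical
  simp only [Zo, mem_filter]

section

variable {X : Sys Ω S U} {M : Finset S} {old : S → Prop}
  (h1 : 2 * X.H 0 ≤ M.card) (h2 : ∀ s ∈ M, old s) (h3 : ∀ s, old s → X.own s = none)

lemma own_some {s : S} {u : U} :
    (ext X M old h1 h2 h3).own s = some (some u) ↔ X.own s = some u := by
  classical
  simp only [ext]
  split_ifs with h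
  · simp [h3 s h]
  · simp

lemma own_none {s : S} : (ext X M old h1 h2 h3).own s = some none ↔ old s := by
  classical
  simp only [ext]
  split_ifs with h <;> simp [h]

lemma n_some {u : U} {ω : Ω} : (ext X M old h1 h2 h3).N (some u) ω ↔ X.N u ω :=
  ⟨fun h => h u rfl, fun h u' e => by cases e; exact h⟩

lemma n_none (ω : Ω) : (ext X M old h1 h2 h3).N none ω := fun _ e => by cases e

lemma sound_iff {ω : Ω} : (ext X M old h1 h2 h3).Sound ω ↔ X.Sound ω := by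
  refine ⟨fun h s u a b => (n_some h1 h2 h3).1 (h s _ a ((own_some h1 h2 h3).2 b)), ?_⟩
  rintro h s (_ | u) a b
  · exact n_none h1 h2 h3 ω
  · exact (n_some h1 h2 h3).2 (h s u a ((own_some h1 h2 h3).1 b))

lemma dec_some {C : Cond X.F} {u : U} : (ext X M old h1 h2 h3).Dec C (some u) ↔ X.Dec C u := by
  simp only [Sys.Dec, sound_iff, n_some]
  rfl

lemma good_iff {C : Cond X.F} (hM : Mk X M C) {n : ℕ} :
    (ext X M old h1 h2 h3).Good n C ↔ X.Good n C := by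
  have hd : (ext X M old h1 h2 h3).Dec C none := Or.inl hM
  refine ⟨fun h => ⟨fun s a b u c ω d => (n_some h1 h2 h3).1
    (h.sound s a b _ ((own_some h1 h2 h3).2 c) ω d), fun u a => (dec_some h1 h2 h3).1
    (h.low (some u) a), fun u a => h.calm (some u) fun b => a ((dec_some h1 h2 h3).1 b)⟩,
    fun h => ⟨?_, ?_, ?_⟩⟩
  · rintro s a b (_ | u) c ω d
    · exact n_none h1 h2 h3 ω
    · exact (n_some h1 h2 h3).2 (h.sound s a b u ((own_some h1 h2 h3).1 c) ω d)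
  · rintro (_ | u) a
    · exact hd
    · exact (dec_some h1 h2 h3).2 (h.low u a)
  · rintro (_ | u) a
    · exact absurd hd a
    · exact h.calm u fun b => a ((dec_some h1 h2 h3).2 b)

lemma z_eq {C : Cond X.F} (hM : Mk X M C) : (ext X M old h1 h2 h3).Z C = Zo X old C := by
  classical
  have hd : (ext X M old h1 h2 h3).Dec C none := Or.inl hM
  ext s
  rw [mem_Zo, Sys.mem_Z, Sys.mem_Z]
  refine ⟨fun h => ⟨⟨h.1, fun u a b => h.2 _ ((own_some h1 h2 h3).2 a) ((dec_some h1 h2 h3).2 b)⟩,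
    fun a => h.2 _ ((own_none h1 h2 h3).2 a) hd⟩, fun h => ⟨h.1.1, ?_⟩⟩
  rintro (_ | u) a b
  · exact h.2 ((own_none h1 h2 h3).1 a)
  · exact h.1.2 u ((own_some h1 h2 h3).1 a) ((dec_some h1 h2 h3).1 b)

include h1 h2 h3 in
lemma stage {Q V : Type} {ans : Ω → Q → Bool} {cost : Q → ℕ}
    (hq : ∀ q, ∃ w, X.F.Chain X.wt (cost q) w fun ω ω' => ans ω' q = ans ω q) {n B d : ℕ}
    (h4 : ∀ m m', X.H m ≤ B → n ≤ m' → 2 * m ≤ X.H m') (T : V → DT Q) (W : Finset V)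
    (hW : ∀ v ∈ W, wdepth cost (T v) ≤ d) (E : Finset U) (hE : ∀ u ∈ E, X.sz u = n)
    {C : Cond X.F} (hC : X.Good n C) (hM : Mk X M C)
    (hB : (Zo X old C).card + E.card * (2 * n) + W.card * d ≤ B) :
    ∃ C', C.Le C' ∧ X.Good n C' ∧ (Zo X old C').card ≤ B ∧ (∀ u ∈ E, X.Dec C' u) ∧
      ∀ v ∈ W, ∃ b, ∀ A, C'.Sat A → (T v).eval (ans A) = b := by
  obtain ⟨C1, a1, a2, a3, a4⟩ := Sys.forced (X := ext X M old h1 h2 h3) (n := n)
    (E.map ⟨some, Option.some_injective U⟩) (fun u hu => by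
      obtain ⟨u', a, rfl⟩ := mem_map.1 hu
      exact hE u' a) C ((good_iff h1 h2 h3 hM).2 hC)
  rw [z_eq h1 h2 h3 hM, card_map] at a3
  obtain ⟨C2, b1, b2, b3, b4⟩ := Sys.trees (X := ext X M old h1 h2 h3) hq h4 T W hW C1 a2
    (by omega)
  have hM2 : Mk X M C2 := hM.mono (a1.trans b1)
  rw [z_eq h1 h2 h3 hM2] at b3
  exact ⟨C2, a1.trans b1, (good_iff h1 h2 h3 hM2).1 b2, by omega, fun u hu =>
    ((dec_some h1 h2 h3).1 (a4 _ (mem_map_of_mem _ hu))).mono b1, b4⟩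

end

lemma advice {X : Sys Ω S U} {V Y : Type} {n : ℕ} (W : Finset V) (Ad : Finset Y) (c : V → Y → S)
    (hinj : ∀ v a v' a', c v a = c v' a' → v = v' ∧ a = a') (hown : ∀ v a, X.own (c v a) = none)
    (b : V → Bool) {C : Cond X.F} (hC : X.Good n C) {old old' : S → Prop}
    (ho : ∀ v ∈ W, ∀ a ∈ Ad, ¬ old (c v a) ∧ old' (c v a)) (hoo : ∀ s, old s → old' s) :
    ∃ C', C.Le C' ∧ X.Good n C' ∧ (Zo X old' C').card ≤ (Zo X old C).card ∧
      ∃ G ⊆ Ad, Ad.card ≤ G.card + (Zo X old C).card ∧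
        ∀ a ∈ G, ∀ v ∈ W, ∀ A, C'.Sat A → X.F.bit A (c v a) = b v := by
  classical
  let G := Ad.filter fun a => ∀ v ∈ W, c v a ∉ C.D
  have hG : (Ad.filter fun a => ¬ ∀ v ∈ W, c v a ∉ C.D).card ≤ (Zo X old C).card := by
    refine card_le_card_of_forall_subsingleton (fun a s => ∃ v, s = c v a) (fun a h => ?_) ?_
    · obtain ⟨h1, h2⟩ := mem_filter.1 h
      push Not at h2
      obtain ⟨v, h3, h4⟩ := h2
      exact ⟨c v a, mem_filter.2 ⟨Sys.mem_Z.2 ⟨h4, fun u e => by rw [hown] at e; cases e⟩,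
        (ho v h3 a h1).1⟩, v, rfl⟩
    · rintro s - a ⟨-, v, e⟩ a' ⟨-, v', e'⟩
      exact (hinj _ _ _ _ (e.symm.trans e')).2
  have hG' := card_filter_add_card_filter_not (s := Ad) fun a => ∀ v ∈ W, c v a ∉ C.D
  let E := (W ×ˢ G).image fun p => c p.1 p.2
  have hE : ∀ s ∈ E, s ∉ C.D ∧ old' s ∧ X.own s = none := fun s hs => by
    obtain ⟨p, hp, rfl⟩ := mem_image.1 hs
    obtain ⟨h1, h2⟩ := mem_product.1 hp
    obtain ⟨h3, h4⟩ := mem_filter.1 h2
    exact ⟨h4 _ h1, (ho _ h1 _ h3).2, hown _ _⟩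
  let A' : S → Bool := fun s =>
    if h : s ∈ E ∧ ∃ v, ∃ a, c v a = s then b h.2.choose else X.F.bit C.ω s
  have hA' : ∀ s ∈ C.D, A' s = X.F.bit C.ω s := fun s hs => dif_neg fun h => (hE s h.1).1 hs
  obtain ⟨ω', p1, p2⟩ := X.F.flip C.k C.D C.ω A' C.ok hA'
  let C' : Cond X.F := ⟨C.k, C.D ∪ E, ω', X.F.mono _ _ _ C.ok subset_union_left⟩
  have l1 : C.Le C' := ⟨subset_union_left, .rfl' _, p1, fun s hs => by
    simp only [C', p2, hA' s hs]⟩
  have hnew : ∀ s ∈ C.D ∪ E, ∀ u, X.own s = some u → s ∈ C.D := fun s hs u e =>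
    (mem_union.1 hs).resolve_right fun h => by rw [(hE s h).2.2] at e; cases e
  refine ⟨C', l1, ⟨?_, fun u h => (hC.low u h).mono l1, fun u h => ?_⟩, ?_, G, filter_subset _ _,
    by simp only [G]; omega, ?_⟩
  · intro s hs e u hu
    have h := hnew s hs u hu
    exact (hC.sound s h ((l1.2.2.2 s h).symm.trans e) u hu).mono l1
  · refine lt_of_le_of_lt (card_le_card fun s hs => ?_) (hC.calm u fun d => h (d.mono l1))
    obtain ⟨c1, c2⟩ := mem_inter.1 hs
    exact mem_inter.2 ⟨c1, hnew s c2 u (X.own_blk u s c1)⟩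
  · refine card_le_card fun s hs => ?_
    obtain ⟨b0, b3⟩ := mem_filter.1 hs
    obtain ⟨b1, b2⟩ := Sys.mem_Z.1 b0
    exact mem_filter.2 ⟨Sys.mem_Z.2 ⟨(mem_union.1 b1).resolve_right fun h => b3 (hE s h).2.1,
      fun u e d => b2 u e (d.mono l1)⟩, fun h => b3 (hoo s h)⟩
  · intro a ha v hv A hA
    have h0 : c v a ∈ E := mem_image.2 ⟨(v, a), mem_product.2 ⟨hv, ha⟩, rfl⟩
    rw [hA.2 _ (mem_union_right _ h0)]
    have h : c v a ∈ E ∧ ∃ v', ∃ a', c v' a' = c v a := ⟨h0, v, a, rfl⟩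
    simp only [C', p2, A', dif_pos h]
    rw [(hinj _ _ _ _ h.2.choose_spec.choose_spec).1]

theorem core {Q V Y : Type} (X : Sys Ω S U) {ans : Ω → Q → Bool} {cost : Q → ℕ}
    (hq : ∀ q, ∃ w, X.F.Chain X.wt (cost q) w fun ω ω' => ans ω' q = ans ω q)
    (h2 : ∀ n m m', X.H m ≤ 8 ^ (n + 1) → n ≤ m' → 2 * m ≤ X.H m')
    (Un : ℕ → Finset U) (hU : ∀ n u, u ∈ Un n ↔ X.sz u = n) (hUc : ∀ n, (Un n).card ≤ 2 ^ n)
    (Vn : ℕ → Finset V) (hVc : ∀ n, (Vn n).card ≤ 2 ^ n)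
    (hVd : ∀ n m v, v ∈ Vn n → v ∈ Vn m → n = m) (T : V → DT Q)
    (hT : ∀ n, ∀ v ∈ Vn n, wdepth cost (T v) ≤ 2 ^ n) (Ad : ℕ → Finset Y) (c : V → Y → S)
    (hinj : ∀ v a v' a', c v a = c v' a' → v = v' ∧ a = a') (hown : ∀ v a, X.own (c v a) = none)
    (M : Finset S) (hM1 : 2 * X.H 0 ≤ M.card) (hM2 : ∀ s ∈ M, X.own s = none)
    (hM3 : ∀ n, ∀ v ∈ Vn n, ∀ a ∈ Ad n, c v a ∉ M) :
    ∃ A : Ω, X.Sound A ∧ (∀ u, X.N u A → ∃ s ∈ X.blk u, X.F.bit A s = true) ∧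
      ∀ n, ∃ G ⊆ Ad n, (Ad n).card ≤ G.card + 5 * 8 ^ n ∧
        ∀ a ∈ G, ∀ v ∈ Vn n, X.F.bit A (c v a) = (T v).eval (ans A) := by
  classical
  let old : ℕ → S → Prop := fun n s => s ∈ M ∨ ∃ m < n, ∃ v ∈ Vn m, ∃ a ∈ Ad m, s = c v a
  have o1 : ∀ n s, old n s → X.own s = none := by
    rintro n s (h | ⟨m, -, v, -, a, -, rfl⟩)
    · exact hM2 s h
    · exact hown v a
  have hb : ∀ n : ℕ, 5 * 8 ^ n ≤ 8 ^ (n + 1) ∧
      8 ^ n + 2 ^ n * (2 * n) + 2 ^ n * 2 ^ n ≤ 5 * 8 ^ n := fun n => by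
    have h1 : n < 2 ^ n := Nat.lt_two_pow_self
    have h3 : 8 ^ n = 2 ^ n * (2 ^ n * 2 ^ n) := by
      rw [← mul_pow, ← mul_pow]; norm_num
    refine ⟨by rw [pow_succ]; omega, ?_⟩
    rw [h3]
    generalize 2 ^ n = x at *
    have h4 : x ≤ x * x := Nat.le_mul_self x
    have h5 : x * (2 * n) ≤ x * (2 * (x * x)) := Nat.mul_le_mul_left _ (by omega)
    have h6 : x * x ≤ x * (x * x) := Nat.mul_le_mul_left _ h4
    nlinarith
  have step : ∀ n (C : Cond X.F), ∃ C', X.Good n C → Mk X M C → (Zo X (old n) C).card ≤ 8 ^ n →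
      C.Le C' ∧ X.Good (n + 1) C' ∧ (Zo X (old (n + 1)) C').card ≤ 8 ^ (n + 1) ∧
        ∃ G ⊆ Ad n, (Ad n).card ≤ G.card + 5 * 8 ^ n ∧ ∀ a ∈ G, ∀ v ∈ Vn n, ∀ A, C'.Sat A →
          X.F.bit A (c v a) = (T v).eval (ans A) := by
    intro n C
    by_cases h : X.Good n C ∧ Mk X M C ∧ (Zo X (old n) C).card ≤ 8 ^ n
    swap
    · exact ⟨C, fun a b d => absurd ⟨a, b, d⟩ h⟩
    obtain ⟨hC, hM, hB⟩ := h
    obtain ⟨e0, e4⟩ := hb n
    have e1 := Nat.mul_le_mul_right (2 * n) (hUc n)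
    have e2 := Nat.mul_le_mul_right (2 ^ n) (hVc n)
    obtain ⟨C2, b1, b2, b3, a4, b4⟩ := stage (old := old n) hM1 (fun s h => Or.inl h) (o1 n) hq (B := 5 * 8 ^ n)
      (fun m m' h => h2 n m m' (h.trans e0)) T (Vn n) (hT n) (Un n) (fun u h => (hU n u).1 h) hC hM
      (by omega)
    choose! bit hbit using b4
    obtain ⟨C3, c1, c2, c3, G, g1, g2, c4⟩ := advice (Vn n) (Ad n) c hinj hown bit b2
      (old := old n) (old' := old (n + 1)) (fun v hv a ha => ⟨by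
        rintro (h | ⟨m, h, v', hv', a', -, e⟩)
        · exact hM3 n v hv a ha h
        · obtain ⟨rfl, -⟩ := hinj _ _ _ _ e
          have := hVd _ _ _ hv hv'
          omega, Or.inr ⟨n, by omega, v, hv, a, ha, rfl⟩⟩)
      fun s h => h.imp_right fun ⟨m, h1, h3⟩ => ⟨m, by omega, h3⟩
    refine ⟨C3, fun _ _ _ => ⟨b1.trans c1, ⟨c2.sound, fun u h => ?_, c2.calm⟩, by omega, G, g1,
      by omega, fun a ha v hv A hA => (c4 a ha v hv A hA).trans (hbit v hv A (c1.sat hA)).symm⟩⟩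
    rcases Nat.lt_succ_iff_lt_or_eq.1 h with h | h
    · exact c2.low u h
    · exact (a4 u ((hU n u).2 h)).mono c1
  choose nx hnx using step
  obtain ⟨s0, hs0⟩ : M.Nonempty := card_pos.1 (by have := X.h1 0; omega)
  obtain ⟨w1, -, hw1⟩ := X.F.flip X.F.k0 ∅ X.F.w0 (fun _ => true) X.F.ok0 (by simp)
  let C : ℕ → Cond X.F := fun n =>
    Nat.rec ⟨X.F.k0, {s0}, w1, X.F.mono _ _ _ X.F.ok0 (empty_subset _)⟩ nx n
  have hG : ∀ n, X.Good n (C n) ∧ Mk X M (C n) ∧ (Zo X (old n) (C n)).card ≤ 8 ^ n := by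
    intro n
    induction n with
    | zero =>
      have hD : ∀ s ∈ (C 0).D, s = s0 := fun s hs => mem_singleton.1 hs
      refine ⟨⟨fun s hs _ u hu => ?_, fun u h => by omega, fun u _ => ?_⟩,
        ⟨s0, hs0, mem_singleton_self _, congrFun hw1 s0⟩, ?_⟩
      · rw [hD s hs, hM2 s0 hs0] at hu
        cases hu
      · have := X.h1 (X.sz u)
        have e : X.z (C 0) u = 0 := card_eq_zero.2 (eq_empty_of_forall_notMem fun s hs => by
          have h1 := X.own_blk u s (mem_inter.1 hs).1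
          rw [hD s (mem_inter.1 hs).2, hM2 s0 hs0] at h1
          cases h1)
        omega
      · exact (card_le_card fun s hs => (Sys.mem_Z.1 (mem_Zo.1 hs).1).1).trans
          (card_singleton s0).le
    | succ n ih =>
      obtain ⟨a, b, d, -⟩ := hnx n _ ih.1 ih.2.1 ih.2.2
      exact ⟨b, ih.2.1.mono a, d⟩
  have hle : ∀ n m, n ≤ m → (C n).Le (C m) := by
    intro n m h
    induction m, h using Nat.le_induction with
    | base => exact .refl _
    | succ m _ ih => exact ih.trans (hnx m _ (hG m).1 (hG m).2.1 (hG m).2.2).1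
  have hcl : ∀ n, ∃ ω, (C n).Sat ω ∧ ∀ s, X.F.bit ω s = true → s ∈ (C n).D := by
    intro n
    obtain ⟨A, p1, p2⟩ := X.F.flip (C n).k (C n).D (C n).ω
      (fun s' => if s' ∈ (C n).D then X.F.bit (C n).ω s' else false) (C n).ok
      fun s' hs' => if_pos hs'
    refine ⟨A, ⟨p1, fun s hs => by simp only [p2, if_pos hs]⟩, fun s hs => ?_⟩
    by_contra h
    simp [p2, h] at hs
  choose cl hcl1 hcl2 using hcl
  obtain ⟨A, q1, q2⟩ := X.F.lim (fun n => (C n).k) (fun n => (C n).ω) cl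
    fun n m h => ((hle n m h).sat (hcl1 m)).1
  have hA : ∀ n, (C n).Sat A := fun n => ⟨q1 n, fun s hs => by
    obtain ⟨m, h1, h3⟩ := q2 s n
    rw [h3]
    exact ((hle n m h1).sat (hcl1 m)).2 s hs⟩
  have hS : X.Sound A := by
    intro s u h1 h3
    obtain ⟨m, -, h4⟩ := q2 s 0
    have a := hcl2 m s (h4 ▸ h1)
    exact (hG m).1.sound s a (((hA m).2 s a).symm.trans h1) u h3 A (hA m)
  refine ⟨A, hS, fun u hu => ?_, fun n => ?_⟩
  · rcases (hG (X.sz u + 1)).1.low u (by omega) with ⟨s, a, b, e⟩ | h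
    · exact ⟨s, a, ((hA (X.sz u + 1)).2 s b).trans e⟩
    · exact absurd hu (h A (hA (X.sz u + 1)) hS)
  · obtain ⟨G, g1, g2, h⟩ := (hnx n _ (hG n).1 (hG n).2.1 (hG n).2.2).2.2.2
    exact ⟨G, g1, g2, fun a ha v hv => h a ha v hv A (hA (n + 1))⟩

end Pool.Agent.MP_d3ab35_lc.H54
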