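import Pool.Agent.MP_d3ab35_lc.H19.Defs

/-!
Bounded error probabilistic polynomial time relative to an oracle.
-/

set_option autoImplicit false

namespace Pool.Agent.MP_d3ab35_lc.H54

open Pool.Agent.MP_d3ab35_lc.H50

/-- `BPP` relative to `O`: at least two thirds of the random strings of length `p n` give the
correct answer. -/
def BPPO (O : List Bool → Bool) : Set (List Bool → Bool) :=
  {L | ∃ (p : Polynomial ℕ) (R : List Bool × List Bool → Bool), PO O R ∧
    ∀ x, 2 * 2 ^ p.eval x.length ≤
      3 * {y : List Bool | y.length = p.eval x.length ∧ R (x, y) = L x}.ncard}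

end Pool.Agent.MP_d3ab35_lc.H54
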