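import Pool.Agent.MP_d3ab35_lc.H19.Main
import Pool.Agent.MP_d3ab35_lc.H54.Core
import Pool.Agent.MP_d3ab35_lc.H54.Defs

/-!
The oracle and its extension.
-/

set_option autoImplicit false

namespace Pool.Agent.MP_d3ab35_lc.H54

open Polynomial Pool.Agent.Shared.H56 Function Pool.Agent.MP_d3ab35_lc.H50
open Pool.Agent.MP_d3ab35_lc.H19 hiding Sys Cond

theorem exists_world {Ω : Type} (Fl : Flip Ω Str) (ans : Ω → Str → Bool)
    (hq : ∀ q, Fl.Chain wt (cost q) (q.length + 1) fun ω ω' => ans ω' q = ans ω q)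
    (Fb : ℕ → ℕ) (H1 : ∀ m, 2 * m < 2 ^ Fb m)
    (H2 : ∀ n m m', 2 ^ Fb m ≤ 8 ^ (n + 1) → n ≤ m' → 2 * m ≤ 2 ^ Fb m') :
    ∃ (ω : Ω) (G : ℕ → Finset Str), (∀ u y, Fl.bit ω (code0 u y) = true → NN2 u (ans ω)) ∧
      (∀ u, NN2 u (ans ω) → ∃ s ∈ blkF Fb u, Fl.bit ω s = true) ∧
      (∀ n, ∀ a ∈ G n, a.length = 3 * n + 4) ∧ (∀ n, 2 * 2 ^ (3 * n + 4) ≤ 3 * (G n).card) ∧
      ∀ v, ∀ a ∈ G v.length, Fl.bit ω (code1 v a) = (TT2 Fb v).eval (ans ω) := by
  let sys : H19.Sys Ω Str Str :=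
    { F := Fl
      wt := wt
      sz := fun u => u.length
      N := fun u ω => NN2 u (ans ω)
      own := own
      blk := blkF Fb
      H := fun m => 2 ^ Fb m
      wt_pos := fun s => Nat.succ_pos _
      own_blk := fun u s h => by
        obtain ⟨y, -, rfl⟩ := mem_blkF.1 h
        exact own_eq.2 ⟨y, rfl⟩
      own_wt := fun s u h => by
        obtain ⟨y, rfl⟩ := own_eq.1 h
        have : (code0 u y).length = sz (u, y) + 1 := rfl
        rw [wt, this, sz_pair, sz_list_bool]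
        omega
      card_blk := fun u => by rw [card_blkF, pow_succ]; omega
      cert := by
        rintro u ω ⟨i, x, m, e, Q, h1, h2⟩
        refine (Flip.Batch.finset (fun q => (hq q).batch) Q).imp (le_trans ?_ h1) ?_
        · rw [sq, Finset.sum_mul]
          exact Finset.sum_le_sum fun q hq => Nat.mul_le_mul (cost_le q)
            (Finset.single_le_sum (f := fun s : Str => s.length + 1) (fun _ _ => Nat.zero_le _) hq)
        · rintro _ ω' h rfl
          exact ⟨i, x, m, e, Q, h1, fun A' h' => h2 A' fun s hs => (h' s hs).trans (h s hs)⟩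
      h1 := H1 }
  have hinj : ∀ v a v' a', code1 v a = code1 v' a' → v = v' ∧ a = a' :=
    fun v a v' a' h => Prod.mk.inj (enc_inj (List.cons.inj h).2)
  obtain ⟨A, h1, h2, h3⟩ := core sys (fun q => ⟨_, hq q⟩) H2 strs (fun _ _ => mem_strs)
    (fun n => (card_strs n).le) strs (fun n => (card_strs n).le)
    (fun n m v a b => (mem_strs.1 a).symm.trans (mem_strs.1 b)) (TT2 Fb)
    (fun n v hv => mem_strs.1 hv ▸ depth_TT2 Fb v) (fun n => strs (3 * n + 4)) code1 hinj own_code1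
    ((strs (Fb 0 + 5)).image (code1 [])) (by
      rw [Finset.card_image_of_injective _ fun a a' h => (hinj _ _ _ _ h).2, card_strs, pow_add]
      change 2 * 2 ^ Fb 0 ≤ _
      omega) (fun s hs => by
      obtain ⟨a, -, rfl⟩ := Finset.mem_image.1 hs
      exact own_code1 _ _) (fun n v hv a ha hs => by
      obtain ⟨a', h4, e⟩ := Finset.mem_image.1 hs
      obtain ⟨rfl, rfl⟩ := hinj _ _ _ _ e
      have e1 := mem_strs.1 hv
      have e2 := mem_strs.1 ha
      have e3 := mem_strs.1 h4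
      simp only [List.length_nil] at e1
      omega)
  choose G h4 h5 h6 using h3
  refine ⟨A, G, fun u y h => h1 _ u h (own_eq.2 ⟨y, rfl⟩), h2, fun n a ha => mem_strs.1 (h4 n ha),
    fun n => ?_, fun v a ha => h6 _ a ha v (mem_strs.2 rfl)⟩
  have := h5 n
  rw [card_strs] at this
  have e : 2 ^ (3 * n + 4) = 16 * 8 ^ n := by rw [pow_add, pow_mul]; norm_num [mul_comm]
  omega

lemma exp_tree (Fb : ℕ → ℕ) {A L : Str → Bool} (hL : L ∈ EXPO A) : ∃ (j : ℕ) (m : ℕ[X]), ∀ x,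
    (TT2 Fb (inst j x (m.eval x.length))).eval A = L x := by
  obtain ⟨k, R, ⟨p, q, hq, hR⟩, hL⟩ := hL
  obtain ⟨j, hj⟩ := eJ_surj (.inl (⟨q, PT.of_isPolyTime hq⟩, p, k))
  obtain ⟨B, hB⟩ := (PT.of_isPolyTime hq).size
  obtain ⟨m, hm⟩ := exp_poly (p * (B.comp (2 * X + 1 + 3 * p) + 1)) k
  refine ⟨j, m, fun x => ?_⟩
  rw [TT2_inst, hj, hL, hR]
  · exact eval_toDT _ _ _ _
  · rw [hj]
    have e : sz (x, List.replicate (2 ^ x.length ^ k) true) =
        6 * x.length + 1 + 3 * 2 ^ x.length ^ k := by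
      rw [sz_pair, sz_list_bool, sz_list_bool, List.length_replicate]
      omega
    refine (wdepth_toDT _ ((B.comp (2 * X + 1 + 3 * p) + 1).eval
      (6 * x.length + 1 + 3 * 2 ^ x.length ^ k)) _ _ fun l hl => ?_).trans ?_
    · have c1 := hB ((x, List.replicate (2 ^ x.length ^ k) true), l)
      have c2 : sz ((x, List.replicate (2 ^ x.length ^ k) true), l) ≤
          (2 * X + 1 + 3 * p).eval (6 * x.length + 1 + 3 * 2 ^ x.length ^ k) := by
        rw [sz_pair, sz_list_bool l, e]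
        simp only [eval_add, eval_mul, eval_ofNat, eval_one, eval_X]
        simp only [List.length_nil, e] at hl
        omega
      have c3 := poly_mono B c2
      have c4 : sz (q ((x, List.replicate (2 ^ x.length ^ k) true), l)) =
          2 * sz (q ((x, List.replicate (2 ^ x.length ^ k) true), l)).1 + 1 +
          sz (q ((x, List.replicate (2 ^ x.length ^ k) true), l)).2 := sz_pair _ _
      rw [sz_list_bool] at c4
      rw [eval_add, eval_comp, eval_one]
      dsimp only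
      omega
    · rw [e, ← eval_mul]
      exact hm x.length

lemma exp_sub_bpp {Fb : ℕ → ℕ} {V A : Str → Bool} {G : ℕ → Finset Str}
    (h3 : ∀ n, ∀ a ∈ G n, a.length = 3 * n + 4) (h4 : ∀ n, 2 * 2 ^ (3 * n + 4) ≤ 3 * (G n).card)
    (h5 : ∀ v, ∀ a ∈ G v.length, V (code1 v a) = (TT2 Fb v).eval A) : EXPO A ⊆ BPPO V := by
  intro L hL
  obtain ⟨j, m, hm⟩ := exp_tree Fb hL
  have hp := pt_inst j m
  refine ⟨3 * (6 * C j + 6 * X + 3 * m + 2) + 4,
    fun a => V (code1 (inst j a.1 (m.eval a.1.length)) a.2), po_query V ?_, fun x => ?_⟩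
  · have := hp.comp (g := fun a : Str × Str => a.1) (by fun_prop)
    unfold code1
    fun_prop
  · have e : (3 * (6 * C j + 6 * X + 3 * m + 2) + 4 : ℕ[X]).eval x.length =
        3 * (inst j x (m.eval x.length)).length + 4 := by
      rw [length_inst]; simp
    rw [e]
    refine (h4 _).trans (Nat.mul_le_mul_left _ ?_)
    rw [← Set.ncard_coe_finset]
    exact Set.ncard_le_ncard (fun a ha => ⟨h3 _ a ha, (h5 _ a ha).trans (hm x)⟩)
      ((strs _).finite_toSet.subset fun a ha => mem_strs.2 ha.1)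

lemma bpp_sim {V O : Str → Bool} {g : Str → Str} (hg : PT g) (h : ∀ s, V s = O (g s)) :
    BPPO V ⊆ BPPO O := fun _ ⟨p, R, a, b⟩ => ⟨p, R, po_sim hg h a, b⟩

theorem main (f : ℕ → ℕ) (hf : Adm f) {ι : Type} (F : ι → Type) [∀ i, Field (F i)]
    [∀ i, Finite (F i)] (idx : Str → ι) (dim : Str → ℕ) (pt : ∀ s, Fin (dim s) → F (idx s))
    (out : ∀ s, F (idx s) → Bool) (hdim : ∀ s, dim s ≤ s.length)
    (hcard : ∀ s, Nat.card (F (idx s)) ≤ 2 ^ (s.length + 1)) :
    ∃ (O : Str → Bool) (P : ∀ (m : ℕ) (i : ι), MvPolynomial (Fin m) (F i)),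
      (∀ m i (x : Fin m → Bool), MvPolynomial.eval (fun l => if x l then 1 else 0) (P m i) =
        if O (List.ofFn x) then 1 else 0) ∧
      (∀ m i l, (P m i).degreeOf l ≤ 2) ∧
      (∀ m i l, CharP (F i) 2 → (P m i).degreeOf l ≤ 1) ∧
      ∀ B, B = join O (fun s => out s (MvPolynomial.eval (pt s) (P (dim s) (idx s)))) →
        (NPO B = Beta O f ∧ NPO B = Beta B f) ∧
        (∃ S, Sparse S ∧ ∀ L ∈ NPO B, PO (join O S) L ∧ PO (join B S) L) ∧
        (EXPO B ⊆ PPolyO O ∧ EXPO B ⊆ PPolyO B) ∧ EXPO B ⊆ BPPO O ∧ EXPO B ⊆ BPPO B := by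
  obtain ⟨Fb, H1, H2, hF⟩ := exists_F hf.1 hf.2.1 hf.2.2.2.2
  obtain ⟨ω, G, h1, h2, h3, h4, h5⟩ := exists_world (flipF F) _ (chain_join (O := fun ω => ω.1)
    (E := fun ω s => out s (MvPolynomial.eval (pt s) (poly ω (dim s) (idx s))))
    (fun s => chain_one (step_imp (step_bool s) (by simp) fun _ _ _ h => h) le_rfl)
    (fun s => by
      obtain ⟨l, a, b, c⟩ := chain_alg (idx s) (dim s) (pt s) _ (hcard s)
      refine ⟨l, by omega, fun e he => step_imp (b e he) ?_ fun _ _ _ h => h,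
        fun ω ω' h => congrArg (out s) (c ω ω' h)⟩
      have := hdim s
      omega)) Fb H1 H2
  have hne : ∀ n, ∃ a, a ∈ G n := fun n => Finset.card_pos.1 (by
    have := h4 n
    have : 0 < 2 ^ (3 * n + 4) := by positivity
    omega)
  choose adv hadv using hne
  refine ⟨ω.1, poly ω, poly_bool ω, poly_quad ω, poly_lin ω, ?_⟩
  rintro B rfl
  obtain ⟨a1, a2, a3⟩ := final hf hF (O := ω.1) (fun _ => rfl) (fun _ => rfl) h1 h2
    (fun n => h3 n _ (hadv n)) fun v => h5 v _ (hadv _)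
  have a4 := (exp_sub_bpp h3 h4 h5).trans
    (bpp_sim (O := ω.1) (g := fun s => s ++ s) (by fun_prop) fun _ => rfl)
  exact ⟨a1, a2, a3, a4, a4.trans (bpp_sim (g := fun s => false :: s) (by fun_prop) fun _ => rfl)⟩

end Pool.Agent.MP_d3ab35_lc.H54
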